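import Pool.Agent.H379R3.CDQ.Stmts

set_option autoImplicit false

namespace Pool.Agent.H379R3.CDQ

namespace SmAux

open MvPolynomial

variable {k : Type} [Field k]

lemma homFP (a b : k) : (FP a b).IsHomogeneous 2 := by
  have hX : ∀ i j : Fin 6, (X i * X j : MvPolynomial (Fin 6) k).IsHomogeneous 2 := fun i j =>
    (isHomogeneous_X k i).mul (isHomogeneous_X k j)
  have hX2 : ∀ i : Fin 6, (X i ^ 2 : MvPolynomial (Fin 6) k).IsHomogeneous 2 := fun i => by
    rw [sq]; exact hX i i
  have hN : ∀ i j : Fin 6, (X i ^ 2 + X i * X j + X j ^ 2 : MvPolynomial (Fin 6) k).IsHomogeneous 2 :=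
    fun i j => ((hX2 i).add (hX i j)).add (hX2 j)
  have hC : ∀ (c : k) (p : MvPolynomial (Fin 6) k), p.IsHomogeneous 2 →
      (C c * p).IsHomogeneous 2 := fun c p hp => by
    have := (isHomogeneous_C (Fin 6) c).mul hp
    rwa [zero_add] at this
  exact ((hN 0 1).add (hC a _ (hN 2 3))).add (hC b _ (hN 4 5))

lemma homGP : (GP k).IsHomogeneous 2 := by
  have hX : ∀ i j : Fin 6, (X i * X j : MvPolynomial (Fin 6) k).IsHomogeneous 2 := fun i j =>
    (isHomogeneous_X k i).mul (isHomogeneous_X k j)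
  exact ((hX 0 1).add (hX 2 3)).add (hX 4 5)

lemma block {K : Type} [Field K] {x y : K} (h1 : x * y = 0) (h2 : x ^ 2 + x * y + y ^ 2 = 0) :
    x = 0 ∧ y = 0 := by
  rcases mul_eq_zero.1 h1 with h | h
  · subst h
    simp at h2
    exact ⟨rfl, h2⟩
  · subst h
    simp at h2
    exact ⟨h2, rfl⟩

end SmAux

open SmAux MvPolynomial in
theorem taskSm : TaskSm := by
  intro k _ _ a b ha hb ha1 hb1 hab
  refine ⟨homFP a b, homGP, ?_⟩
  intro v hv hF hG
  have h2k : (2 : k) = 0 := by exact_mod_cast CharP.cast_eq_zero k 2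
  have h2 : (2 : AlgebraicClosure k) = 0 := by
    rw [← map_ofNat (algebraMap k (AlgebraicClosure k)) 2, h2k, map_zero]
  obtain ⟨A, hA⟩ : ∃ A, A = algebraMap k (AlgebraicClosure k) a := ⟨_, rfl⟩
  obtain ⟨B, hB⟩ : ∃ B, B = algebraMap k (AlgebraicClosure k) b := ⟨_, rfl⟩
  have inj : Function.Injective (algebraMap k (AlgebraicClosure k)) :=
    (algebraMap k (AlgebraicClosure k)).injective
  have hA0 : A ≠ 0 := by
    rw [hA]; intro h; exact ha (inj (by rw [h, map_zero]))
  have hB0 : B ≠ 0 := by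
    rw [hB]; intro h; exact hb (inj (by rw [h, map_zero]))
  have hA1 : A ≠ 1 := by
    rw [hA]; intro h; exact ha1 (inj (by rw [h, map_one]))
  have hB1 : B ≠ 1 := by
    rw [hB]; intro h; exact hb1 (inj (by rw [h, map_one]))
  have hAB : A ≠ B := by
    rw [hA, hB]; intro h; exact hab (inj h)
  simp only [FP, GP, map_add, map_mul, map_pow, aeval_X, aeval_C] at hF hG
  rw [← hA, ← hB] at hF
  rw [LinearIndependent.pair_iff]
  intro s t hst
  have e : ∀ i, s * aeval v (pderiv i (FP a b)) + t * aeval v (pderiv i (GP k)) = 0 := by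
    intro i
    have := congrFun hst i
    simpa using this
  have d0 := e 0
  have d1 := e 1
  have d2 := e 2
  have d3 := e 3
  have d4 := e 4
  have d5 := e 5
  simp [FP, GP, pderiv_X, ← hA, ← hB] at d0 d1 d2 d3 d4 d5
  have c0 : (s * 1 + t) * v 0 = 0 := by linear_combination d1 - s * v 1 * h2
  have c1 : (s * 1 + t) * v 1 = 0 := by linear_combination d0 - s * v 0 * h2
  have c2 : (s * A + t) * v 2 = 0 := by linear_combination d3 - s * A * v 3 * h2
  have c3 : (s * A + t) * v 3 = 0 := by linear_combination d2 - s * A * v 2 * h2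
  have c4 : (s * B + t) * v 4 = 0 := by linear_combination d5 - s * B * v 5 * h2
  have c5 : (s * B + t) * v 5 = 0 := by linear_combination d4 - s * B * v 4 * h2
  by_contra hne
  have two : ∀ p q : AlgebraicClosure k, p ≠ q → s * p + t = 0 → s * q + t ≠ 0 := by
    intro p q hpq hp hq
    have h3 : s * (p - q) = 0 := by linear_combination hp - hq
    have h4 : s = 0 := (mul_eq_zero.1 h3).resolve_right (sub_ne_zero.2 hpq)
    refine hne ⟨h4, ?_⟩
    rw [h4, zero_mul, zero_add] at hp
    exact hp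
  have fin : v 0 = 0 → v 1 = 0 → v 2 = 0 → v 3 = 0 → v 4 = 0 → v 5 = 0 → False := by
    intro h0 h1 h2 h3 h4 h5
    apply hv
    funext i
    fin_cases i <;> assumption
  by_cases q1 : s * 1 + t = 0
  · have q2 := two 1 A hA1.symm q1
    have q3 := two 1 B hB1.symm q1
    have z2 := (mul_eq_zero.1 c2).resolve_left q2
    have z3 := (mul_eq_zero.1 c3).resolve_left q2
    have z4 := (mul_eq_zero.1 c4).resolve_left q3
    have z5 := (mul_eq_zero.1 c5).resolve_left q3
    rw [z2, z3, z4, z5] at hF hG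
    obtain ⟨z0, z1⟩ := block (x := v 0) (y := v 1) (by linear_combination hG)
      (by linear_combination hF)
    exact fin z0 z1 z2 z3 z4 z5
  · have z0 := (mul_eq_zero.1 c0).resolve_left q1
    have z1 := (mul_eq_zero.1 c1).resolve_left q1
    by_cases q2 : s * A + t = 0
    · have q3 := two A B hAB q2
      have z4 := (mul_eq_zero.1 c4).resolve_left q3
      have z5 := (mul_eq_zero.1 c5).resolve_left q3
      rw [z0, z1, z4, z5] at hF hG
      have hF' : A * (v 2 ^ 2 + v 2 * v 3 + v 3 ^ 2) = 0 := by linear_combination hF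
      obtain ⟨z2, z3⟩ := block (x := v 2) (y := v 3) (by linear_combination hG)
        ((mul_eq_zero.1 hF').resolve_left hA0)
      exact fin z0 z1 z2 z3 z4 z5
    · have z2 := (mul_eq_zero.1 c2).resolve_left q2
      have z3 := (mul_eq_zero.1 c3).resolve_left q2
      rw [z0, z1, z2, z3] at hF hG
      have hF' : B * (v 4 ^ 2 + v 4 * v 5 + v 5 ^ 2) = 0 := by linear_combination hF
      obtain ⟨z4, z5⟩ := block (x := v 4) (y := v 5) (by linear_combination hG)
        ((mul_eq_zero.1 hF').resolve_left hB0)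
      exact fin z0 z1 z2 z3 z4 z5

end Pool.Agent.H379R3.CDQ
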